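import Mathlib

namespace Pool.Agent.Results.MP_b92640_nt.SidonBlocks

open Finset Pointwise

/-- A finite set all of whose nonzero differences are taken only once. -/
def Sid (S : Finset ℕ) : Prop :=
  ∀ a ∈ S, ∀ b ∈ S, ∀ c ∈ S, ∀ d ∈ S, a + d = b + c → a ≠ b → a = c

lemma inter_card_le_one {S : Finset ℕ} (hS : Sid S) {y z : ℕ} (hyz : y ≠ z) :
    ((S + {y}) ∩ (S + {z})).card ≤ 1 := by
  rw [Finset.card_le_one]
  intro u hu v hv
  rw [Finset.mem_inter, Finset.mem_add, Finset.mem_add] at hu hv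
  obtain ⟨⟨a, ha, y1, hy1, rfl⟩, ⟨b, hb, z1, hz1, hab⟩⟩ := hu
  obtain ⟨⟨c, hc, y2, hy2, rfl⟩, ⟨d, hd, z2, hz2, hcd⟩⟩ := hv
  rw [Finset.mem_singleton] at hy1 hy2 hz1 hz2
  subst hy1 hy2 hz1 hz2
  have hne : a ≠ b := by
    rintro rfl
    omega
  have := hS a ha b hb c hc d hd (by omega) hne
  rw [this]

lemma sumset_card {S : Finset ℕ} (hS : Sid S) (R : Finset ℕ) :
    2 * (R.card * S.card) ≤ 2 * (S + R).card + R.card ^ 2 := by
  induction R using Finset.induction_on with
  | empty => simp
  | insert y R hy ih =>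
    have h1 : S + insert y R = (S + {y}) ∪ (S + R) := by
      rw [Finset.insert_eq, Finset.add_union]
    have h2 : ((S + {y}) ∩ (S + R)).card ≤ R.card := by
      obtain ⟨f, hf⟩ : ∃ f : ℕ → Finset ℕ, ∀ z : ℕ,
          f z = (S + ({y} : Finset ℕ)) ∩ (S + ({z} : Finset ℕ)) :=
        ⟨fun z : ℕ => (S + ({y} : Finset ℕ)) ∩ (S + ({z} : Finset ℕ)), fun _ => rfl⟩
      have hsub : (S + {y}) ∩ (S + R) ⊆ R.biUnion f := by
        intro x hx
        rw [Finset.mem_inter] at hx
        obtain ⟨hx1, hx2⟩ := hx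
        rw [Finset.mem_add] at hx2
        obtain ⟨s, hs, z, hz, rfl⟩ := hx2
        rw [Finset.mem_biUnion]
        refine ⟨z, hz, ?_⟩
        rw [hf]
        exact Finset.mem_inter.mpr
          ⟨hx1, Finset.add_mem_add hs (Finset.mem_singleton_self z)⟩
      have hle : ∀ z ∈ R, (f z).card ≤ 1 := by
        intro z hz
        have hyz : y ≠ z := fun h => hy (h ▸ hz)
        rw [hf]
        exact inter_card_le_one hS hyz
      have h1 := Finset.card_le_card hsub
      have h2 := Finset.card_biUnion_le_card_mul R f 1 hle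
      omega
    have h3 : (S + {y}).card = S.card := by
      rw [Finset.add_singleton]
      exact Finset.card_image_of_injective _ (fun a b h => by simpa using h)
    have h4 := Finset.card_union_add_card_inter (S + {y}) (S + R)
    rw [h1, Finset.card_insert_of_notMem hy]
    have h5 : ((S + {y}) ∪ (S + R)).card + R.card ≥ S.card + (S + R).card := by omega
    nlinarith

/-- the dyadic parameter of the `j`-th block -/
def q (j : ℕ) : ℕ := 2 ^ (j + 1)

lemma q_pos (j : ℕ) : 0 < q j := by unfold q; positivity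

lemma exists_p (j : ℕ) : ∃ p, Nat.Prime p ∧ q j < p ∧ p ≤ 2 * q j :=
  Nat.exists_prime_lt_and_le_two_mul (q j) (q_pos j).ne'

/-- a prime in `(q j, 2 * q j]` -/
noncomputable def p (j : ℕ) : ℕ := (exists_p j).choose

lemma p_prime (j : ℕ) : Nat.Prime (p j) := (exists_p j).choose_spec.1
lemma q_lt_p (j : ℕ) : q j < p j := (exists_p j).choose_spec.2.1
lemma p_le (j : ℕ) : p j ≤ 2 * q j := (exists_p j).choose_spec.2.2

/-- the `k`-th element of the `j`-th block -/
noncomputable def el (j k : ℕ) : ℕ := 8 * (q j) ^ 2 + (2 * p j * k + k ^ 2 % p j)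

/-- the `j`-th block, an Erdos-Turan Sidon set placed in `[8 q ^ 2, 16 q ^ 2)` -/
noncomputable def block (j : ℕ) : Finset ℕ := (Finset.range (p j)).image (el j)

lemma el_lower (j k : ℕ) : 8 * (q j) ^ 2 ≤ el j k := by unfold el; omega

lemma el_upper {j k : ℕ} (hk : k < p j) : el j k < 16 * (q j) ^ 2 := by
  have h1 : k ^ 2 % p j < p j := Nat.mod_lt _ (p_prime j).pos
  have h2 : p j ≤ 2 * q j := p_le j
  have h3 : (p j) ^ 2 ≤ 4 * (q j) ^ 2 := by nlinarith
  have h4 : 2 * p j * k + p j ≤ 2 * (p j) ^ 2 := by nlinarith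
  unfold el
  omega

lemma el_key {j a b c d : ℕ} (h : el j a + el j d = el j b + el j c) :
    a + d = b + c ∧ a ^ 2 % p j + d ^ 2 % p j = b ^ 2 % p j + c ^ 2 % p j := by
  have hp : 0 < p j := (p_prime j).pos
  have ha := Nat.mod_lt (a ^ 2) hp
  have hb := Nat.mod_lt (b ^ 2) hp
  have hc := Nat.mod_lt (c ^ 2) hp
  have hd := Nat.mod_lt (d ^ 2) hp
  unfold el at h
  generalize a ^ 2 % p j = A at *
  generalize b ^ 2 % p j = B at *
  generalize c ^ 2 % p j = C at *
  generalize d ^ 2 % p j = D at *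
  have h' : 2 * p j * (a + d) + (A + D) = 2 * p j * (b + c) + (B + C) := by
    have : 8 * q j ^ 2 + (2 * p j * a + A) + (8 * q j ^ 2 + (2 * p j * d + D)) =
      16 * q j ^ 2 + (2 * p j * (a + d) + (A + D)) := by ring
    have h2 : 8 * q j ^ 2 + (2 * p j * b + B) + (8 * q j ^ 2 + (2 * p j * c + C)) =
      16 * q j ^ 2 + (2 * p j * (b + c) + (B + C)) := by ring
    rw [this, h2] at h
    omega
  have h1 : a + d = b + c := by
    rcases lt_trichotomy (a + d) (b + c) with hlt | heq | hgt
    · exfalso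
      have : 2 * p j * (a + d) + 2 * p j ≤ 2 * p j * (b + c) := by nlinarith
      omega
    · exact heq
    · exfalso
      have : 2 * p j * (b + c) + 2 * p j ≤ 2 * p j * (a + d) := by nlinarith
      omega
  refine ⟨h1, ?_⟩
  rw [h1] at h'
  omega

lemma el_inj (j : ℕ) : Function.Injective (el j) := by
  intro a b h
  have := (el_key (j := j) (a := a) (b := b) (c := 0) (d := 0) (by rw [h])).1
  omega

lemma card_block (j : ℕ) : (block j).card = p j := by
  unfold block
  rw [Finset.card_image_of_injective _ (el_inj j), Finset.card_range]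

lemma block_sid (j : ℕ) : Sid (block j) := by
  intro a ha b hb c hc d hd h hab
  unfold block at ha hb hc hd
  rw [Finset.mem_image] at ha hb hc hd
  obtain ⟨a, ha, rfl⟩ := ha
  obtain ⟨b, hb, rfl⟩ := hb
  obtain ⟨c, hc, rfl⟩ := hc
  obtain ⟨d, hd, rfl⟩ := hd
  rw [Finset.mem_range] at ha hb hc hd
  have hne : a ≠ b := fun h => hab (by rw [h])
  obtain ⟨h1, h2⟩ := el_key h
  have : Fact (p j).Prime := ⟨p_prime j⟩
  have h3 : ((a : ZMod (p j)) ^ 2 + (d : ZMod (p j)) ^ 2) = (b : ZMod (p j)) ^ 2 + (c : ZMod (p j)) ^ 2 := by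
    have := congrArg (fun n : ℕ => (n : ZMod (p j))) h2
    simpa [ZMod.natCast_mod] using this
  have h4 : (a : ZMod (p j)) + d = b + c := by
    have := congrArg (fun n : ℕ => (n : ZMod (p j))) h1
    simpa using this
  have cast_inj : ∀ x y : ℕ, x < p j → y < p j → (x : ZMod (p j)) = y → x = y := by
    intro x y hx hy hxy
    have := (ZMod.natCast_eq_natCast_iff' x y (p j)).mp hxy
    rwa [Nat.mod_eq_of_lt hx, Nat.mod_eq_of_lt hy] at this
  have h5 : (a : ZMod (p j)) - b ≠ 0 := by
    intro h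
    exact hne (cast_inj a b ha hb (sub_eq_zero.mp h))
  have h6 : ((a : ZMod (p j)) - b) * ((a : ZMod (p j)) + b) = (a - b) * (c + d) := by
    have hcd : (c : ZMod (p j)) - d = a - b := by linear_combination -h4
    calc ((a : ZMod (p j)) - b) * ((a : ZMod (p j)) + b) = a ^ 2 - b ^ 2 := by ring
      _ = c ^ 2 - d ^ 2 := by linear_combination h3
      _ = (c - d) * (c + d) := by ring
      _ = (a - b) * (c + d) := by rw [hcd]
  have h7 := mul_left_cancel₀ h5 h6
  have h8 : (2 : ZMod (p j)) * (a - c) = 0 := by linear_combination h4 + h7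
  have h2ne : (2 : ZMod (p j)) ≠ 0 := by
    have hp2 : 2 < p j := by
      have := q_lt_p j
      have h2q : 2 ≤ q j := by
        unfold q
        calc 2 = 2 ^ 1 := by norm_num
          _ ≤ 2 ^ (j + 1) := Nat.pow_le_pow_right (by norm_num) (by omega)
      omega
    intro h
    have : ((2 : ℕ) : ZMod (p j)) = 0 := by exact_mod_cast h
    rw [ZMod.natCast_eq_zero_iff] at this
    exact absurd (Nat.le_of_dvd (by norm_num) this) (by omega)
  have h9 : (a : ZMod (p j)) = c := by
    rcases mul_eq_zero.mp h8 with h | h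
    · exact absurd h h2ne
    · exact sub_eq_zero.mp h
  rw [cast_inj a c ha hc h9]

/-- Zero together with all the blocks. -/
def seqA : Set ℕ := {0} ∪ ⋃ j, (block j : Set ℕ)

lemma block_subset (j : ℕ) : (block j : Set ℕ) ⊆ seqA :=
  fun _ hx => Or.inr (Set.mem_iUnion.mpr ⟨j, hx⟩)

lemma block_bounds {j x : ℕ} (hx : x ∈ block j) : 8 * (q j) ^ 2 ≤ x ∧ x < 16 * (q j) ^ 2 := by
  unfold block at hx
  rw [Finset.mem_image] at hx
  obtain ⟨k, hk, rfl⟩ := hx
  exact ⟨el_lower j k, el_upper (Finset.mem_range.mp hk)⟩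

lemma basis_card {B : Set ℕ} [DecidablePred (· ∈ B)] (hB : B + B = Set.univ) (m : ℕ) :
    m + 1 ≤ ((Finset.range (m + 1)).filter (· ∈ B)).card ^ 2 := by
  set R := (Finset.range (m + 1)).filter (· ∈ B) with hR
  have hsub : Finset.range (m + 1) ⊆ R + R := by
    intro x hx
    have hx' : x ∈ B + B := by rw [hB]; trivial
    rw [Set.mem_add] at hx'
    obtain ⟨b, hb, c, hc, rfl⟩ := hx'
    rw [Finset.mem_range] at hx
    rw [Finset.mem_add]
    refine ⟨b, ?_, c, ?_, rfl⟩
    · rw [hR, Finset.mem_filter, Finset.mem_range]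
      exact ⟨by omega, hb⟩
    · rw [hR, Finset.mem_filter, Finset.mem_range]
      exact ⟨by omega, hc⟩
  calc m + 1 = (Finset.range (m + 1)).card := (Finset.card_range _).symm
    _ ≤ (R + R).card := Finset.card_le_card hsub
    _ ≤ R.card * R.card := Finset.card_add_le
    _ = R.card ^ 2 := by ring

open Classical in
lemma density_lower {B : Set ℕ} (hB : B + B = Set.univ) (n : ℕ) (hn : 0 < n) :
    n ≤ 256 * ((Finset.Ioc 0 n).filter (· ∈ seqA + B)).card := by
  have h1B : 1 ∈ B := by
    have : (1 : ℕ) ∈ B + B := by rw [hB]; trivial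
    rw [Set.mem_add] at this
    obtain ⟨b, hb, c, hc, hbc⟩ := this
    have : b = 1 ∨ c = 1 := by omega
    rcases this with rfl | rfl <;> assumption
  have h1 : 1 ≤ ((Finset.Ioc 0 n).filter (· ∈ seqA + B)).card := by
    rw [Nat.succ_le_iff, Finset.card_pos]
    refine ⟨1, ?_⟩
    rw [Finset.mem_filter, Finset.mem_Ioc]
    exact ⟨⟨by norm_num, hn⟩, Set.mem_add.mpr ⟨0, Or.inl rfl, 1, h1B, by norm_num⟩⟩
  rcases lt_or_ge n 128 with hsmall | hbig
  · omega
  -- choose the scale
  set t := Nat.log 4 (n / 32) with ht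
  have hn32 : 4 ≤ n / 32 := by omega
  have ht1 : 1 ≤ t := by
    rw [ht]
    exact Nat.le_log_of_pow_le (by norm_num) (by simpa using hn32)
  obtain ⟨j, hj⟩ : ∃ j, t = j + 1 := ⟨t - 1, by omega⟩
  have hq2 : (q j) ^ 2 = 4 ^ t := by
    unfold q
    rw [hj, ← pow_mul, mul_comm, pow_mul]
    norm_num
  have hlo : 32 * (q j) ^ 2 ≤ n := by
    have := Nat.pow_log_le_self 4 (x := n / 32) (by omega)
    rw [← ht, ← hq2] at this
    omega
  have hhi : n < 128 * (q j) ^ 2 := by
    have := Nat.lt_pow_succ_log_self (b := 4) (by norm_num) (n / 32)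
    rw [← ht, pow_succ, ← hq2] at this
    omega
  -- the part of B to be used
  have hRc := basis_card hB (16 * (q j) ^ 2)
  set R := (Finset.range (16 * (q j) ^ 2 + 1)).filter (· ∈ B) with hR
  have hqR : q j ≤ R.card := by
    by_contra hlt
    push Not at hlt
    have : R.card ^ 2 < (q j) ^ 2 := Nat.pow_lt_pow_left hlt (by norm_num)
    omega
  obtain ⟨R', hR', hR'c⟩ := Finset.exists_subset_card_eq hqR
  have hsum := sumset_card (block_sid j) R'
  rw [hR'c, card_block] at hsum
  have hp := q_lt_p j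
  have h2 : (q j) ^ 2 ≤ 2 * (block j + R').card := by nlinarith
  have hsub : block j + R' ⊆ (Finset.Ioc 0 n).filter (· ∈ seqA + B) := by
    intro x hx
    rw [Finset.mem_add] at hx
    obtain ⟨s, hs, r, hr, rfl⟩ := hx
    have hb := block_bounds hs
    have hr2 := hR' hr
    rw [hR, Finset.mem_filter, Finset.mem_range] at hr2
    have hqpos : 0 < (q j) ^ 2 := pow_pos (q_pos j) 2
    rw [Finset.mem_filter, Finset.mem_Ioc]
    refine ⟨⟨by omega, by omega⟩, Set.mem_add.mpr ⟨s, block_subset j hs, r, hr2.2, rfl⟩⟩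
  have h3 := Finset.card_le_card hsub
  omega

open Classical in
lemma count_bound (n : ℕ) :
    ((Finset.Icc 1 n).filter (· ∈ seqA)).card ^ 2 ≤ 2 * n := by
  set J := Nat.log 4 (n / 8) with hJ
  have hsub : (Finset.Icc 1 n).filter (· ∈ seqA) ⊆ (Finset.range J).biUnion block := by
    intro x hx
    rw [Finset.mem_filter, Finset.mem_Icc] at hx
    obtain ⟨⟨hx1, hxn⟩, hxA⟩ := hx
    rcases hxA with h0 | hU
    · have h0' : x = 0 := h0
      omega
    · obtain ⟨j, hj⟩ := Set.mem_iUnion.mp hU
      have hj' : x ∈ block j := hj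
      have hb := block_bounds hj'
      rw [Finset.mem_biUnion]
      refine ⟨j, ?_, hj'⟩
      rw [Finset.mem_range, hJ]
      have hq2 : (q j) ^ 2 = 4 ^ (j + 1) := by
        unfold q
        rw [← pow_mul, mul_comm, pow_mul]
        norm_num
      have h4 : 4 ^ (j + 1) ≤ n / 8 := by
        rw [← hq2]
        omega
      exact Nat.le_log_of_pow_le (by norm_num) h4
  have hcard : ((Finset.Icc 1 n).filter (· ∈ seqA)).card ≤ 4 * (2 ^ J - 1) := by
    calc ((Finset.Icc 1 n).filter (· ∈ seqA)).card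
        ≤ ((Finset.range J).biUnion block).card := Finset.card_le_card hsub
      _ ≤ ∑ j ∈ Finset.range J, (block j).card := Finset.card_biUnion_le
      _ ≤ ∑ j ∈ Finset.range J, 4 * 2 ^ j := by
          refine Finset.sum_le_sum (fun j _ => ?_)
          rw [card_block]
          have := p_le j
          unfold q at this
          rw [pow_succ] at this
          omega
      _ = 4 * (2 ^ J - 1) := by
          rw [← Finset.mul_sum, Nat.geomSum_eq (by norm_num)]
          norm_num
  rcases Nat.eq_zero_or_pos J with h0 | hpos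
  · rw [h0] at hcard
    have : ((Finset.Icc 1 n).filter (· ∈ seqA)).card = 0 := by simpa using hcard
    rw [this]
    simp
  · have hn8 : n / 8 ≠ 0 := by
      intro h
      rw [hJ, h] at hpos
      simp at hpos
    have h4 : 4 ^ J ≤ n / 8 := Nat.pow_log_le_self 4 hn8
    have h5 : ((Finset.Icc 1 n).filter (· ∈ seqA)).card ≤ 4 * 2 ^ J := by omega
    calc ((Finset.Icc 1 n).filter (· ∈ seqA)).card ^ 2 ≤ (4 * 2 ^ J) ^ 2 :=
          Nat.pow_le_pow_left h5 2
      _ = 16 * 4 ^ J := by
          rw [mul_pow, ← pow_mul, mul_comm J 2, pow_mul]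
          norm_num
      _ ≤ 2 * n := by omega

open Classical in
/-- There is a sequence `A` containing `0`, different from `{0, 1} ∪ primes`, with
`A(n) ^ 2 ≤ 2 n` for all `n` (so of zero asymptotic density), such that `A + B` has Schnirelmann
density at least `1 / 256`, in particular positive, for every basis `B` of order `2`. -/
theorem result : ∃ A : Set ℕ, 0 ∈ A ∧ A ≠ {0, 1} ∪ {r | Nat.Prime r} ∧
    (∀ n : ℕ, ((Finset.Icc 1 n).filter (· ∈ A)).card ^ 2 ≤ 2 * n) ∧
    Filter.Tendsto (fun n : ℕ => (((Finset.Icc 1 n).filter (· ∈ A)).card : ℝ) / n)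
      Filter.atTop (nhds 0) ∧
    ∀ B : Set ℕ, 0 ∈ B → B + B = Set.univ →
      0 < schnirelmannDensity (A + B) ∧ 1 / 256 ≤ schnirelmannDensity (A + B) := by
  refine ⟨seqA, Or.inl rfl, ?_, count_bound, ?_, ?_⟩
  · intro h
    have h1 : (1 : ℕ) ∈ seqA := by
      rw [h]
      left
      simp
    rcases h1 with h1 | h1
    · simp at h1
    · obtain ⟨j, hj⟩ := Set.mem_iUnion.mp h1
      have := (block_bounds hj).1
      have hq := pow_pos (q_pos j) 2
      omega
  · have hlim : Filter.Tendsto (fun n : ℕ => Real.sqrt (2 / (n : ℝ))) Filter.atTop (nhds 0) := by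
      have h1 : Filter.Tendsto (fun n : ℕ => (2 / (n : ℝ))) Filter.atTop (nhds 0) :=
        tendsto_const_div_atTop_nhds_zero_nat 2
      have h2 := (Real.continuous_sqrt.tendsto 0).comp h1
      rw [Real.sqrt_zero] at h2
      exact h2
    refine squeeze_zero (fun n => by positivity) (fun n => ?_) hlim
    rcases Nat.eq_zero_or_pos n with rfl | hn
    · simp
    · apply Real.le_sqrt_of_sq_le
      have hnR : (0 : ℝ) < n := by exact_mod_cast hn
      rw [div_pow, div_le_div_iff₀ (by positivity) hnR]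
      have := count_bound n
      have h2 : ((((Finset.Icc 1 n).filter (· ∈ seqA)).card : ℝ)) ^ 2 ≤ 2 * n := by exact_mod_cast this
      nlinarith
  · intro B _ hB
    have key : (1 : ℝ) / 256 ≤ schnirelmannDensity (seqA + B) := by
      rw [le_schnirelmannDensity_iff]
      intro n hn
      have hn' : 0 < n := by omega
      have h := density_lower hB n hn'
      have hnR : (0 : ℝ) < n := by exact_mod_cast hn'
      rw [div_le_div_iff₀ (by norm_num) hnR]
      have h2 : (n : ℝ) ≤ 256 * ((Finset.Ioc 0 n).filter (· ∈ seqA + B)).card := by exact_mod_cast h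
      linarith
    exact ⟨lt_of_lt_of_le (by norm_num) key, key⟩

end Pool.Agent.Results.MP_b92640_nt.SidonBlocks
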